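import Pool.Agent.L5helper94.TF.Final

open MeasureTheory Set

namespace Pool.Agent.Results.MP_793d1e_an.FiniteMeasure

/-- The indicator of `Ω` tiles the line at level one with translation set `Λ`: `Λ` is countable
and almost every `x` lies in exactly one of the translates `Ω + l`, `l ∈ Λ`. -/
def TilesLevelOne (Ω Λ : Set ℝ) : Prop :=
  Λ.Countable ∧ ∀ᵐ x : ℝ, ∃! l : ℝ, l ∈ Λ ∧ x - l ∈ Ω

/-- `Λ` is a finite nonempty union of translates of one arithmetic progression `α ℤ`, `α > 0`. -/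
def PeriodicStructure (Λ : Set ℝ) : Prop :=
  ∃ α : ℝ, 0 < α ∧ ∃ F : Finset ℝ, F.Nonempty ∧ Λ = {t | ∃ β ∈ F, ∃ k : ℤ, t = α * k + β}

lemma t1_iff (Ω Λ : Set ℝ) :
    Helper575.NP.T1 Ω Λ ↔ ∀ᵐ x : ℝ, ∃! l : ℝ, l ∈ Λ ∧ x - l ∈ Ω := by
  have h : ∀ x : ℝ, {l | l ∈ Λ ∧ x - l ∈ Ω}.encard = 1 ↔ ∃! l : ℝ, l ∈ Λ ∧ x - l ∈ Ω := by
    intro x
    rw [encard_eq_one]
    constructor
    · rintro ⟨a, ha⟩
      have h1 : a ∈ {l | l ∈ Λ ∧ x - l ∈ Ω} := by rw [ha]; exact mem_singleton a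
      refine ⟨a, h1, fun y hy => ?_⟩
      have h2 : y ∈ {l | l ∈ Λ ∧ x - l ∈ Ω} := hy
      rw [ha] at h2
      exact mem_singleton_iff.1 h2
    · rintro ⟨a, ha, hu⟩
      refine ⟨a, ?_⟩
      ext y
      constructor
      · intro hy
        exact mem_singleton_iff.2 (hu y hy)
      · intro hy
        rw [mem_singleton_iff.1 hy]
        exact ha
  unfold Helper575.NP.T1
  simp only [h]

/-- a null modification of the set does not change its translation sets -/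
lemma tiles_congr {Ω Ω' : Set ℝ} (he : Ω' =ᵐ[volume] Ω) {Λ : Set ℝ} (h : TilesLevelOne Ω Λ) :
    TilesLevelOne Ω' Λ := by
  refine ⟨h.1, ?_⟩
  have : Countable Λ := h.1.to_subtype
  have h3 : ∀ᵐ x : ℝ, ∀ l : Λ, (x - (l : ℝ) ∈ Ω' ↔ x - (l : ℝ) ∈ Ω) := by
    refine ae_all_iff.2 fun l => ?_
    have hq : Measure.QuasiMeasurePreserving (fun x : ℝ => x + (-(l : ℝ))) volume volume :=
      (measurePreserving_add_right volume (-(l : ℝ))).quasiMeasurePreserving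
    have h4 := hq.ae (show ∀ᵐ x : ℝ, (x ∈ Ω' ↔ x ∈ Ω) from he.mem_iff)
    filter_upwards [h4] with x hx
    exact hx
  filter_upwards [h.2, h3] with x hx hx'
  obtain ⟨l, ⟨hl, hl'⟩, hu⟩ := hx
  refine ⟨l, ⟨hl, (hx' ⟨l, hl⟩).2 hl'⟩, fun y hy => ?_⟩
  exact hu y ⟨hy.1, (hx' ⟨y, hy.1⟩).1 hy.2⟩

/-- Let `Ω` be a Lebesgue measurable set of real numbers of positive finite measure. Every
translation set with which `Ω` tiles the line at level one has a periodic structure, and only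
finitely many of these translation sets contain `0`. -/
theorem result (Ω : Set ℝ) (hΩ : NullMeasurableSet Ω) (h0 : 0 < volume Ω) (h1 : volume Ω < ⊤) :
    (∀ Λ : Set ℝ, TilesLevelOne Ω Λ → PeriodicStructure Λ) ∧
      {Λ : Set ℝ | TilesLevelOne Ω Λ ∧ 0 ∈ Λ}.Finite := by
  obtain ⟨Ω', -, hm, he⟩ := hΩ.exists_measurable_superset_ae_eq
  have hfull := L5helper94.TF.full (Ω := Ω') hm (by rwa [measure_congr he])
    (by rwa [measure_congr he])
  have hT : ∀ Λ : Set ℝ, TilesLevelOne Ω Λ → Λ.Countable ∧ Helper575.NP.T1 Ω' Λ := by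
    intro Λ hΛ
    have h2 := tiles_congr he hΛ
    exact ⟨h2.1, (t1_iff Ω' Λ).2 h2.2⟩
  refine ⟨fun Λ hΛ => hfull.1 Λ (hT Λ hΛ).1 (hT Λ hΛ).2, hfull.2.subset ?_⟩
  rintro Λ ⟨hΛ, h0Λ⟩
  exact ⟨hT Λ hΛ, h0Λ⟩

end Pool.Agent.Results.MP_793d1e_an.FiniteMeasure
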